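import Pool.Agent.Helper99.DF.St

/-!
# Project DF (MP_d49380), module PR9: the identity check is primitive recursive
-/

set_option autoImplicit false

namespace Pool.Agent.Helper71.DF

open Pool.Agent.Helper99.DF
open Pool.Agent.Helper4.IL (primrec_int_add primrec_int_mul primrec_int_ofNat)

private theorem all_mem {α β : Type} [Primcodable α] [Primcodable β] {f : α → List β}
    {R : α → β → Prop} (hf : Primrec f) (hR : PrimrecPred fun p : α × β => R p.1 p.2) :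
    PrimrecPred fun a => ∀ b ∈ f a, R a b := by
  have h1 : PrimrecRel fun (b : β) (a : α) => R a b :=
    hR.comp (Primrec.pair Primrec.snd Primrec.fst)
  exact h1.forall_mem_list.comp hf Primrec.id

private theorem p_pow : Primrec₂ ((· ^ ·) : ℕ → ℕ → ℕ) := by
  have h : Primrec₂ (fun a n : ℕ => Nat.rec (motive := fun _ => ℕ) 1 (fun _ ih => ih * a) n) := by
    refine Primrec.nat_rec (f := fun _ : ℕ => 1) (g := fun (a : ℕ) (p : ℕ × ℕ) => p.2 * a)
      (Primrec.const 1) ?_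
    exact Primrec.nat_mul.comp (Primrec.snd.comp Primrec.snd) Primrec.fst
  refine h.of_eq fun a n => ?_
  induction n with
  | zero => simp
  | succ n ih =>
    show Nat.rec (motive := fun _ => ℕ) 1 (fun _ ih => ih * a) n * a = _
    rw [ih, pow_succ]

private theorem p_sumZ : Primrec (fun l : List ℤ => l.sum) := by
  have h : Primrec (fun l : List ℤ => l.foldr (fun b s => b + s) 0) := by
    refine Primrec.list_foldr (f := fun l : List ℤ => l) (g := fun _ : List ℤ => (0 : ℤ))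
      (h := fun (_ : List ℤ) (p : ℤ × ℤ) => p.1 + p.2) Primrec.id (Primrec.const 0) ?_
    exact primrec_int_add.comp (Primrec.fst.comp Primrec.snd) (Primrec.snd.comp Primrec.snd)
  exact h.of_eq fun l => rfl

private theorem p_sumN : Primrec (fun l : List ℕ => l.sum) := by
  have h : Primrec (fun l : List ℕ => l.foldr (fun b s => b + s) 0) := by
    refine Primrec.list_foldr (f := fun l : List ℕ => l) (g := fun _ : List ℕ => (0 : ℕ))
      (h := fun (_ : List ℕ) (p : ℕ × ℕ) => p.1 + p.2) Primrec.id (Primrec.const 0) ?_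
    exact Primrec.nat_add.comp (Primrec.fst.comp Primrec.snd) (Primrec.snd.comp Primrec.snd)
  exact h.of_eq fun l => rfl

/-- grid points -/
private theorem p_gv : Primrec (fun q : (ℕ × ℕ) × ℕ => gv q.1.1 q.1.2 q.2) := by
  unfold gv
  refine Primrec.list_map (Primrec.list_range.comp (Primrec.fst.comp Primrec.fst)) ?_
  have hk : Primrec (fun p : ((ℕ × ℕ) × ℕ) × ℕ => p.2) := Primrec.snd
  have hm : Primrec (fun p : ((ℕ × ℕ) × ℕ) × ℕ => p.1.2) := Primrec.snd.comp Primrec.fst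
  have hD : Primrec (fun p : ((ℕ × ℕ) × ℕ) × ℕ => p.1.1.2 + 1) :=
    Primrec.succ.comp (Primrec.snd.comp (Primrec.fst.comp Primrec.fst))
  have h : Primrec (fun p : ((ℕ × ℕ) × ℕ) × ℕ => if p.2 = 0 then (0 : ℤ) else
      (((p.1.2 / (p.1.1.2 + 1) ^ p.2) % (p.1.1.2 + 1) : ℕ) : ℤ)) :=
    Primrec.ite (Primrec.eq.comp hk (Primrec.const 0)) (Primrec.const 0)
      (primrec_int_ofNat.comp (Primrec.nat_mod.comp (Primrec.nat_div.comp hm (p_pow.comp hD hk)) hD))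
  exact h

/-- the value of one of the polynomials -/
private theorem p_PT (h3 : StPR3) : Primrec (fun q : (List ℕ × ℕ) × (Ent × List ℤ) =>
    (PT (q.1.1 ++ [q.2.1.1]) q.1.2 q.2.1.2.2 (sq q.2.2) : ℤ)) := by
  have h3' : Primrec (fun q : (List ℕ × ℕ) × (Pol × List ℤ) =>
    (PT q.1.1 q.1.2 q.2.1 (sq q.2.2) : ℤ)) := h3
  have hen : Primrec (fun q : (List ℕ × ℕ) × (Ent × List ℤ) => q.2.1) :=
    Primrec.fst.comp Primrec.snd
  have hW : Primrec (fun q : (List ℕ × ℕ) × (Ent × List ℤ) => q.1.1 ++ [q.2.1.1]) :=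
    Primrec.list_append.comp (Primrec.fst.comp Primrec.fst)
      (Primrec.list_cons.comp (Primrec.fst.comp hen) (Primrec.const []))
  have h := h3'.comp (Primrec.pair (Primrec.pair hW (Primrec.snd.comp Primrec.fst))
    (Primrec.pair (Primrec.snd.comp (Primrec.snd.comp hen)) (Primrec.snd.comp Primrec.snd)))
  exact h

/-- the value of the entry with index `a` at the `j`-th iterate -/
private theorem p_val (h1 : StPR1) (h3 : StPR3) :
    Primrec (fun q : ((List ℕ × ℕ) × List Ent) × (List ℤ × (ℕ × ℕ)) =>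
    (PT (q.1.1.1 ++ [(q.1.2.getD q.2.2.2 (0, [], [])).1]) q.1.1.2
      (q.1.2.getD q.2.2.2 (0, [], [])).2.2 (sq (TL^[q.2.2.1] q.2.1)) : ℤ)) := by
  have h1' : Primrec (fun q : ℕ × List ℤ => TL^[q.1] q.2) := h1
  have hj : Primrec (fun q : ((List ℕ × ℕ) × List Ent) × (List ℤ × (ℕ × ℕ)) => q.2.2.1) :=
    Primrec.fst.comp (Primrec.snd.comp Primrec.snd)
  have ha : Primrec (fun q : ((List ℕ × ℕ) × List Ent) × (List ℤ × (ℕ × ℕ)) => q.2.2.2) :=
    Primrec.snd.comp (Primrec.snd.comp Primrec.snd)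
  have hv : Primrec (fun q : ((List ℕ × ℕ) × List Ent) × (List ℤ × (ℕ × ℕ)) => q.2.1) :=
    Primrec.fst.comp Primrec.snd
  have hT : Primrec (fun q : ((List ℕ × ℕ) × List Ent) × (List ℤ × (ℕ × ℕ)) =>
      TL^[q.2.2.1] q.2.1) := h1'.comp (Primrec.pair hj hv)
  have hE : Primrec (fun q : ((List ℕ × ℕ) × List Ent) × (List ℤ × (ℕ × ℕ)) =>
      q.1.2.getD q.2.2.2 ((0, [], []) : Ent)) :=
    (Primrec.list_getD ((0, [], []) : Ent)).comp (Primrec.snd.comp Primrec.fst) ha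
  have h := (p_PT h3).comp (Primrec.pair (Primrec.fst.comp Primrec.fst) (Primrec.pair hE hT))
  exact h

/-- the context of the identity -/
private abbrev Cx : Type := (List ℕ × ℕ) × (List Ent × List (List (List Pol)))

/-- one term of the right side -/
private theorem p_term (h1 : StPR1) (h3 : StPR3) (h4 : StPR4) :
    Primrec (fun q : (Cx × (List ℤ × ℕ)) × (ℕ × ℕ) =>
    (evB (((q.1.1.2.2.getD q.1.2.2 []).getD q.2.1 []).getD q.2.2 []) (sq q.1.2.1) *
      PT (q.1.1.1.1 ++ [(q.1.1.2.1.getD q.2.2 (0, [], [])).1]) q.1.1.1.2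
        (q.1.1.2.1.getD q.2.2 (0, [], [])).2.2 (sq (TL^[q.2.1] q.1.2.1)) : ℤ)) := by
  have h4' : Primrec (fun q : Pol × List ℤ => (evB q.1 (sq q.2) : ℤ)) := h4
  have hC : Primrec (fun q : (Cx × (List ℤ × ℕ)) × (ℕ × ℕ) => q.1.1) :=
    Primrec.fst.comp Primrec.fst
  have hv : Primrec (fun q : (Cx × (List ℤ × ℕ)) × (ℕ × ℕ) => q.1.2.1) :=
    Primrec.fst.comp (Primrec.snd.comp Primrec.fst)
  have ha : Primrec (fun q : (Cx × (List ℤ × ℕ)) × (ℕ × ℕ) => q.1.2.2) :=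
    Primrec.snd.comp (Primrec.snd.comp Primrec.fst)
  have hj : Primrec (fun q : (Cx × (List ℤ × ℕ)) × (ℕ × ℕ) => q.2.1) :=
    Primrec.fst.comp Primrec.snd
  have hb : Primrec (fun q : (Cx × (List ℤ × ℕ)) × (ℕ × ℕ) => q.2.2) :=
    Primrec.snd.comp Primrec.snd
  have hqs : Primrec (fun q : (Cx × (List ℤ × ℕ)) × (ℕ × ℕ) => q.1.1.2.2) :=
    Primrec.snd.comp (Primrec.snd.comp hC)
  have hen : Primrec (fun q : (Cx × (List ℤ × ℕ)) × (ℕ × ℕ) => q.1.1.2.1) :=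
    Primrec.fst.comp (Primrec.snd.comp hC)
  have g1 : Primrec (fun q : (Cx × (List ℤ × ℕ)) × (ℕ × ℕ) =>
      q.1.1.2.2.getD q.1.2.2 ([] : List (List Pol))) :=
    (Primrec.list_getD ([] : List (List Pol))).comp hqs ha
  have g2 : Primrec (fun q : (Cx × (List ℤ × ℕ)) × (ℕ × ℕ) =>
      (q.1.1.2.2.getD q.1.2.2 ([] : List (List Pol))).getD q.2.1 ([] : List Pol)) :=
    (Primrec.list_getD ([] : List Pol)).comp g1 hj
  have g3 : Primrec (fun q : (Cx × (List ℤ × ℕ)) × (ℕ × ℕ) =>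
      ((q.1.1.2.2.getD q.1.2.2 ([] : List (List Pol))).getD q.2.1 ([] : List Pol)).getD q.2.2
        ([] : Pol)) :=
    (Primrec.list_getD ([] : Pol)).comp g2 hb
  have e1 := h4'.comp (Primrec.pair g3 hv)
  have e2 := (p_val h1 h3).comp (Primrec.pair (Primrec.pair (Primrec.fst.comp hC) hen)
    (Primrec.pair hv (Primrec.pair hj hb)))
  exact primrec_int_mul.comp e1 e2

/-- the right side -/
private theorem p_rhs (h1 : StPR1) (h3 : StPR3) (h4 : StPR4) :
    Primrec (fun q : (Cx × (List ℤ × ℕ)) × ℕ =>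
    (((List.range (q.2 + 1)).map (fun j => ((List.range q.1.1.2.1.length).map (fun b =>
      (evB (((q.1.1.2.2.getD q.1.2.2 []).getD j []).getD b []) (sq q.1.2.1) *
      PT (q.1.1.1.1 ++ [(q.1.1.2.1.getD b (0, [], [])).1]) q.1.1.1.2
        (q.1.1.2.1.getD b (0, [], [])).2.2 (sq (TL^[j] q.1.2.1)) : ℤ))).sum)).sum : ℤ)) := by
  refine p_sumZ.comp (Primrec.list_map (Primrec.list_range.comp (Primrec.succ.comp Primrec.snd)) ?_)
  have hin : Primrec (fun p : ((Cx × (List ℤ × ℕ)) × ℕ) × ℕ =>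
      ((List.range p.1.1.1.2.1.length).map (fun b =>
      (evB (((p.1.1.1.2.2.getD p.1.1.2.2 []).getD p.2 []).getD b []) (sq p.1.1.2.1) *
      PT (p.1.1.1.1.1 ++ [(p.1.1.1.2.1.getD b (0, [], [])).1]) p.1.1.1.1.2
        (p.1.1.1.2.1.getD b (0, [], [])).2.2 (sq (TL^[p.2] p.1.1.2.1)) : ℤ))).sum) := by
    have hlen : Primrec (fun p : ((Cx × (List ℤ × ℕ)) × ℕ) × ℕ =>
        List.range p.1.1.1.2.1.length) :=
      Primrec.list_range.comp (Primrec.list_length.comp (Primrec.fst.comp (Primrec.snd.comp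
        (Primrec.fst.comp (Primrec.fst.comp Primrec.fst)))))
    refine p_sumZ.comp (Primrec.list_map hlen ?_)
    have h := (p_term h1 h3 h4).comp (Primrec.pair
      ((Primrec.fst.comp (Primrec.fst.comp Primrec.fst) :
        Primrec (fun p : (((Cx × (List ℤ × ℕ)) × ℕ) × ℕ) × ℕ => p.1.1.1)))
      (Primrec.pair (Primrec.snd.comp Primrec.fst) Primrec.snd))
    exact h
  exact hin

/-- the identity at one point -/
private theorem p_idl (h1 : StPR1) (h3 : StPR3) (h4 : StPR4) :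
    PrimrecPred (fun q : (Cx × (List ℤ × ℕ)) × ℕ =>
      idl q.1.1.1.2 q.2 q.1.1.1.1 q.1.1.2.1 q.1.1.2.2 q.1.2.1 q.1.2.2) := by
  have hC : Primrec (fun q : (Cx × (List ℤ × ℕ)) × ℕ => q.1.1) := Primrec.fst.comp Primrec.fst
  have hv : Primrec (fun q : (Cx × (List ℤ × ℕ)) × ℕ => q.1.2.1) :=
    Primrec.fst.comp (Primrec.snd.comp Primrec.fst)
  have ha : Primrec (fun q : (Cx × (List ℤ × ℕ)) × ℕ => q.1.2.2) :=
    Primrec.snd.comp (Primrec.snd.comp Primrec.fst)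
  have hs : Primrec (fun q : (Cx × (List ℤ × ℕ)) × ℕ => q.2 + 1) :=
    Primrec.succ.comp Primrec.snd
  have hen : Primrec (fun q : (Cx × (List ℤ × ℕ)) × ℕ => q.1.1.2.1) :=
    Primrec.fst.comp (Primrec.snd.comp hC)
  have e1 := (p_val h1 h3).comp (Primrec.pair (Primrec.pair (Primrec.fst.comp hC) hen)
    (Primrec.pair hv (Primrec.pair hs ha)))
  exact Primrec.eq.comp e1 (p_rhs h1 h3 h4)

/-- the degree check of the coefficient polynomials -/
private theorem p_deg : PrimrecPred (fun q : ℕ × List (List (List Pol)) =>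
    ∀ q1 ∈ q.2, ∀ q2 ∈ q1, ∀ r ∈ q2, ∀ ce ∈ r, ce.2.sum ≤ q.1) := by
  have a4 : PrimrecPred (fun q : ℕ × Pol => ∀ ce ∈ q.2, ce.2.sum ≤ q.1) := by
    refine all_mem (R := fun (q : ℕ × Pol) (ce : ℤ × List ℕ) => ce.2.sum ≤ q.1) Primrec.snd ?_
    exact Primrec.nat_le.comp (p_sumN.comp (Primrec.snd.comp Primrec.snd))
      (Primrec.fst.comp Primrec.fst)
  have a3 : PrimrecPred (fun q : ℕ × List Pol => ∀ r ∈ q.2, ∀ ce ∈ r, ce.2.sum ≤ q.1) := by
    refine all_mem (R := fun (q : ℕ × List Pol) (r : Pol) => ∀ ce ∈ r, ce.2.sum ≤ q.1)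
      Primrec.snd ?_
    exact a4.comp (Primrec.pair (Primrec.fst.comp Primrec.fst) Primrec.snd)
  have a2 : PrimrecPred (fun q : ℕ × List (List Pol) =>
      ∀ q2 ∈ q.2, ∀ r ∈ q2, ∀ ce ∈ r, ce.2.sum ≤ q.1) := by
    refine all_mem (R := fun (q : ℕ × List (List Pol)) (q2 : List Pol) =>
      ∀ r ∈ q2, ∀ ce ∈ r, ce.2.sum ≤ q.1) Primrec.snd ?_
    exact a3.comp (Primrec.pair (Primrec.fst.comp Primrec.fst) Primrec.snd)
  refine all_mem (R := fun (q : ℕ × List (List (List Pol))) (q1 : List (List Pol)) =>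
    ∀ q2 ∈ q1, ∀ r ∈ q2, ∀ ce ∈ r, ce.2.sum ≤ q.1) Primrec.snd ?_
  exact a2.comp (Primrec.pair (Primrec.fst.comp Primrec.fst) Primrec.snd)

/-- the size check -/
private theorem p_size : PrimrecPred (fun q : (ℕ × ℕ × ℕ × ℕ) × List ℕ =>
    q.1.2.2.1 + 2 * q.1.1 * (q.2.length + 1) * 2 ^ (q.1.2.1 + 1) ≤ q.1.2.2.2) := by
  have hN : Primrec (fun q : (ℕ × ℕ × ℕ × ℕ) × List ℕ => q.1.1) := Primrec.fst.comp Primrec.fst
  have h2 : Primrec (fun q : (ℕ × ℕ × ℕ × ℕ) × List ℕ => q.1.2) := Primrec.snd.comp Primrec.fst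
  have hs : Primrec (fun q : (ℕ × ℕ × ℕ × ℕ) × List ℕ => q.1.2.1 + 1) :=
    Primrec.succ.comp (Primrec.fst.comp h2)
  have hDq : Primrec (fun q : (ℕ × ℕ × ℕ × ℕ) × List ℕ => q.1.2.2.1) :=
    Primrec.fst.comp (Primrec.snd.comp h2)
  have hDg : Primrec (fun q : (ℕ × ℕ × ℕ × ℕ) × List ℕ => q.1.2.2.2) :=
    Primrec.snd.comp (Primrec.snd.comp h2)
  have hl : Primrec (fun q : (ℕ × ℕ × ℕ × ℕ) × List ℕ => q.2.length + 1) :=
    Primrec.succ.comp (Primrec.list_length.comp Primrec.snd)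
  exact Primrec.nat_le.comp (Primrec.nat_add.comp hDq (Primrec.nat_mul.comp
    (Primrec.nat_mul.comp (Primrec.nat_mul.comp (Primrec.const 2) hN) hl)
    (p_pow.comp (Primrec.const 2) hs))) hDg

/-- the check on the grid -/
private theorem p_grid (h1 : StPR1) (h3 : StPR3) (h4 : StPR4) :
    PrimrecPred (fun q : (Cx × ℕ) × (ℕ × ℕ) =>
      ∀ a ∈ List.range q.1.1.2.1.length, ∀ m ∈ List.range ((q.2.2 + 1) ^ q.2.1),
        idl q.1.1.1.2 q.1.2 q.1.1.1.1 q.1.1.2.1 q.1.1.2.2 (gv q.2.1 q.2.2 m) a) := by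
  refine all_mem (f := fun q : (Cx × ℕ) × (ℕ × ℕ) => List.range q.1.1.2.1.length)
    (R := fun (q : (Cx × ℕ) × (ℕ × ℕ)) (a : ℕ) => ∀ m ∈ List.range ((q.2.2 + 1) ^ q.2.1),
        idl q.1.1.1.2 q.1.2 q.1.1.1.1 q.1.1.2.1 q.1.1.2.2 (gv q.2.1 q.2.2 m) a) ?_ ?_
  · exact Primrec.list_range.comp (Primrec.list_length.comp (Primrec.fst.comp (Primrec.snd.comp
      (Primrec.fst.comp Primrec.fst))))
  refine all_mem (f := fun q : ((Cx × ℕ) × (ℕ × ℕ)) × ℕ =>
      List.range ((q.1.2.2 + 1) ^ q.1.2.1))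
    (R := fun (q : ((Cx × ℕ) × (ℕ × ℕ)) × ℕ) (m : ℕ) =>
        idl q.1.1.1.1.2 q.1.1.2 q.1.1.1.1.1 q.1.1.1.2.1 q.1.1.1.2.2 (gv q.1.2.1 q.1.2.2 m) q.2) ?_ ?_
  · have hn : Primrec (fun q : ((Cx × ℕ) × (ℕ × ℕ)) × ℕ => q.1.2.1) :=
      Primrec.fst.comp (Primrec.snd.comp Primrec.fst)
    have hD : Primrec (fun q : ((Cx × ℕ) × (ℕ × ℕ)) × ℕ => q.1.2.2 + 1) :=
      Primrec.succ.comp (Primrec.snd.comp (Primrec.snd.comp Primrec.fst))
    exact Primrec.list_range.comp (p_pow.comp hD hn)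
  · have hn : Primrec (fun p : (((Cx × ℕ) × (ℕ × ℕ)) × ℕ) × ℕ => p.1.1.2) :=
      Primrec.snd.comp (Primrec.fst.comp Primrec.fst)
    have hnm : Primrec (fun p : (((Cx × ℕ) × (ℕ × ℕ)) × ℕ) × ℕ => (p.1.1.2, p.2)) :=
      Primrec.pair hn Primrec.snd
    have hg := p_gv.comp hnm
    have hc : Primrec (fun p : (((Cx × ℕ) × (ℕ × ℕ)) × ℕ) × ℕ => p.1.1.1.1) :=
      Primrec.fst.comp (Primrec.fst.comp (Primrec.fst.comp Primrec.fst))
    have hs : Primrec (fun p : (((Cx × ℕ) × (ℕ × ℕ)) × ℕ) × ℕ => p.1.1.1.2) :=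
      Primrec.snd.comp (Primrec.fst.comp (Primrec.fst.comp Primrec.fst))
    have ha : Primrec (fun p : (((Cx × ℕ) × (ℕ × ℕ)) × ℕ) × ℕ => p.1.2) :=
      Primrec.snd.comp Primrec.fst
    have h := (p_idl h1 h3 h4).comp (Primrec.pair (Primrec.pair hc (Primrec.pair hg ha)) hs)
    exact h

/-- module PR9 -/
theorem hPR9 (h1 : StPR1) (h2 : StPR3) (h3 : StPR4) : StPR9 := by
  unfold StPR9 okI
  have hA : Primrec (fun q : (ℕ × ℕ × ℕ × ℕ × ℕ) × (List ℕ × List Ent × List (List (List Pol))) =>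
      q.1) := Primrec.fst
  have hn : Primrec (fun q : (ℕ × ℕ × ℕ × ℕ × ℕ) × (List ℕ × List Ent × List (List (List Pol))) =>
      q.1.1) := Primrec.fst.comp Primrec.fst
  have hR : Primrec (fun q : (ℕ × ℕ × ℕ × ℕ × ℕ) × (List ℕ × List Ent × List (List (List Pol))) =>
      q.1.2) := Primrec.snd.comp Primrec.fst
  have hN : Primrec (fun q : (ℕ × ℕ × ℕ × ℕ × ℕ) × (List ℕ × List Ent × List (List (List Pol))) =>
      q.1.2.1) := Primrec.fst.comp hR
  have hs : Primrec (fun q : (ℕ × ℕ × ℕ × ℕ × ℕ) × (List ℕ × List Ent × List (List (List Pol))) =>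
      q.1.2.2.1) := Primrec.fst.comp (Primrec.snd.comp hR)
  have hDq : Primrec (fun q : (ℕ × ℕ × ℕ × ℕ × ℕ) × (List ℕ × List Ent × List (List (List Pol))) =>
      q.1.2.2.2.1) := Primrec.fst.comp (Primrec.snd.comp (Primrec.snd.comp hR))
  have hDg : Primrec (fun q : (ℕ × ℕ × ℕ × ℕ × ℕ) × (List ℕ × List Ent × List (List (List Pol))) =>
      q.1.2.2.2.2) := Primrec.snd.comp (Primrec.snd.comp (Primrec.snd.comp hR))
  have hB : Primrec (fun q : (ℕ × ℕ × ℕ × ℕ × ℕ) × (List ℕ × List Ent × List (List (List Pol))) =>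
      q.2) := Primrec.snd
  have hZ : Primrec (fun q : (ℕ × ℕ × ℕ × ℕ × ℕ) × (List ℕ × List Ent × List (List (List Pol))) =>
      q.2.1) := Primrec.fst.comp hB
  have hEQ : Primrec (fun q : (ℕ × ℕ × ℕ × ℕ × ℕ) × (List ℕ × List Ent × List (List (List Pol))) =>
      q.2.2) := Primrec.snd.comp hB
  refine PrimrecPred.and (p_size.comp (Primrec.pair hR hZ)) (PrimrecPred.and
    (p_deg.comp (Primrec.pair hDq (Primrec.snd.comp hEQ))) ?_)
  have h := (p_grid h1 h2 h3).comp (Primrec.pair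
    (Primrec.pair (Primrec.pair (Primrec.pair hZ hN) hEQ) hs) (Primrec.pair hn hDg))
  exact h

end Pool.Agent.Helper71.DF
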